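import Mathlib
import Pool.Agent.TH170.GS.Rel

/-!
# Slope traces of purely imaginary elements

The antisymmetric linear relations between the translates of odd functions `ε i` on the embeddings of
CM fields `K i` are trivial if no nonzero family of purely imaginary elements `x i` has
`∑ i, ∑ ψ, ε i ψ * ψ (x i) = 0`.
-/

set_option linter.unusedSectionVars false
set_option linter.unusedVariables false

namespace Pool.Agent.K7.H35.TI

open NumberField Finset Module Pool.Agent.H204R3.CM Pool.Agent.H977R3.CM Pool.Agent.TH170.FW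
  Pool.Agent.TH170.GS Pool.Agent.TH170.MF

section rel

variable {I : Type} [Fintype I] {K : I → Type} [∀ i, Field (K i)]
  [∀ i, NumberField (K i)] [∀ i, IsCMField (K i)]

/-- No nonzero family of purely imaginary elements has trace zero with respect to `ε`. -/
def TraceIndep {I : Type} [Fintype I] (K : I → Type) [∀ i, Field (K i)] [∀ i, NumberField (K i)]
    (ε : ∀ i, (K i →+* ℂ) → ℤ) : Prop :=
  ∀ x : ∀ i, K i, (∀ i, ∀ ψ : K i →+* ℂ, (starRingEnd ℂ) (ψ (x i)) = - ψ (x i)) →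
    ∑ i, ∑ ψ : K i →+* ℂ, (ε i ψ : ℂ) * ψ (x i) = 0 → ∀ i, x i = 0

theorem trivial_of_rel {L : Type} [Field L] [NumberField L] [IsGalois ℚ L] (j : L →+* ℂ)
    (hj : ∀ i, ∀ ψ : K i →+* ℂ, ∃ φ : K i →+* L, j.comp φ = ψ)
    {ε : ∀ i, (K i →+* ℂ) → ℤ} (hε : TraceIndep K ε)
    (c : ∀ i, (K i →+* L) → ℤ) (hc : ∀ i φ, c i (cbar φ) = - c i φ)
    (hrel : ∀ g : L ≃ₐ[ℚ] L, ∑ i, ∑ φ : K i →+* L, c i φ * ε i (j.comp (g • φ)) = 0) (i : I)
    (φ : K i →+* L) : c i φ = 0 := by
  classical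
  let y : L → ∀ i, (K i →+* L) → L := fun θ i φ =>
    ∑ τ : L ≃ₐ[ℚ] L, (c i (τ⁻¹ • φ) : L) * τ θ
  have heq : ∀ θ i (g : L ≃ₐ[ℚ] L) φ, g (y θ i φ) = y θ i (g • φ) := by
    intro θ i g φ
    simp only [y]
    rw [map_sum]
    refine Fintype.sum_equiv (Equiv.mulLeft g) _ _ fun τ => ?_
    rw [map_mul, map_intCast, Equiv.coe_mulLeft, mul_inv_rev, mul_smul, inv_smul_smul]
    rfl
  have hcbar : ∀ (i : I) (g : L ≃ₐ[ℚ] L) (φ : K i →+* L), g • cbar φ = cbar (g • φ) :=
    fun i g φ => rfl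
  have hodd : ∀ θ i φ, y θ i (cbar φ) = - y θ i φ := by
    intro θ i φ
    simp only [y]
    rw [← sum_neg_distrib]
    refine sum_congr rfl fun τ _ => ?_
    rw [hcbar, hc]
    push_cast
    ring
  have hx : ∀ θ i, ∃ x : K i, ∀ φ : K i →+* L, φ x = y θ i φ := by
    intro θ i
    obtain ⟨ψ⟩ : Nonempty (K i →+* ℂ) := inferInstance
    obtain ⟨φ₀, _⟩ := hj i ψ
    have h1 : y θ i φ₀ ∈ (φ₀.toRatAlgHom).fieldRange := by
      rw [← IsGalois.fixedField_fixingSubgroup (φ₀.toRatAlgHom).fieldRange]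
      rw [IntermediateField.mem_fixedField_iff]
      intro g hg
      rw [heq]
      congr 1
      ext z
      rw [emb_smul_apply]
      exact (IntermediateField.mem_fixingSubgroup_iff _ _).1 hg (φ₀ z) ⟨z, rfl⟩
    obtain ⟨x, hx⟩ := h1
    refine ⟨x, fun φ => ?_⟩
    obtain ⟨g, rfl⟩ := MulAction.exists_smul_eq (L ≃ₐ[ℚ] L) φ₀ φ
    rw [← heq, emb_smul_apply]
    exact congrArg g hx
  have hy0 : ∀ θ i φ, y θ i φ = 0 := by
    intro θ
    choose x hx using hx θ
    have h1 := hε x ?_ ?_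
    · intro i φ
      rw [← hx, h1, map_zero]
    · intro i ψ
      obtain ⟨φ, rfl⟩ := hj i ψ
      have h2 : (starRingEnd ℂ) ((j.comp φ) (x i)) = (j.comp (cbar φ)) (x i) := by
        rw [comp_cbar, ComplexEmbedding.conjugate_coe_eq]
      rw [h2]
      change j (cbar φ (x i)) = - j (φ (x i))
      rw [hx, hx, hodd, map_neg]
    · have h3 : ∀ i, ∑ ψ : K i →+* ℂ, (ε i ψ : ℂ) * ψ (x i) =
          j (∑ φ : K i →+* L, (ε i (j.comp φ) : L) * y θ i φ) := by
        intro i
        rw [map_sum]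
        refine (Fintype.sum_equiv (toC j (hj i)) _ _ fun φ => ?_).symm
        rw [toC_apply, map_mul, map_intCast, ← hx]
        rfl
      rw [sum_congr rfl fun i _ => h3 i, ← map_sum]
      have h4 : ∑ i, ∑ φ : K i →+* L, (ε i (j.comp φ) : L) * y θ i φ =
          ∑ τ : L ≃ₐ[ℚ] L, ((∑ i, ∑ φ : K i →+* L, c i φ * ε i (j.comp (τ • φ)) : ℤ) : L) * τ θ := by
        simp only [y, mul_sum]
        have h5 : ∀ i, ∑ φ : K i →+* L, ∑ τ : L ≃ₐ[ℚ] L,
            (ε i (j.comp φ) : L) * ((c i (τ⁻¹ • φ) : L) * τ θ) =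
            ∑ τ : L ≃ₐ[ℚ] L, ∑ φ : K i →+* L, (c i φ * ε i (j.comp (τ • φ)) : L) * τ θ := by
          intro i
          rw [sum_comm]
          refine sum_congr rfl fun τ _ => ?_
          refine Fintype.sum_equiv (MulAction.toPerm τ⁻¹) _ _ fun φ => ?_
          rw [MulAction.toPerm_apply, smul_inv_smul]
          ring
        rw [sum_congr rfl fun i _ => h5 i, sum_comm]
        refine sum_congr rfl fun τ _ => ?_
        push_cast
        rw [sum_mul]
        refine sum_congr rfl fun i _ => ?_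
        rw [sum_mul]
      rw [h4]
      have h6 : ∑ τ : L ≃ₐ[ℚ] L,
          ((∑ i, ∑ φ : K i →+* L, c i φ * ε i (j.comp (τ • φ)) : ℤ) : L) * τ θ = 0 := by
        refine sum_eq_zero fun τ _ => ?_
        rw [hrel τ, Int.cast_zero, zero_mul]
      rw [h6, map_zero]
  -- Dedekind
  have hli : LinearIndependent L (fun τ : L ≃ₐ[ℚ] L => (τ : L → L)) := by
    have h1 := linearIndependent_monoidHom L L
    exact h1.comp (fun τ : L ≃ₐ[ℚ] L => ((τ : L →* L))) (fun τ τ' h => by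
      ext z
      exact DFunLike.congr_fun h z)
  rw [Fintype.linearIndependent_iff] at hli
  have h7 := hli (fun τ => (c i (τ⁻¹ • φ) : L)) (by
    funext θ
    rw [Finset.sum_apply]
    simpa only [Pi.smul_apply, smul_eq_mul, Pi.zero_apply] using hy0 θ i φ) 1
  rw [inv_one, one_smul] at h7
  exact_mod_cast h7

end rel

end Pool.Agent.K7.H35.TI
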