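import Mathlib
import Pool.Agent.K7.H35.TI.Crit

/-!
# Perturbation of odd functions without relations
-/

set_option linter.unusedSectionVars false
set_option linter.unusedVariables false

namespace Pool.Agent.K7.H35.TI

open NumberField Finset Module Pool.Agent.H204R3.CM Pool.Agent.H977R3.CM Pool.Agent.TH170.FW
  Pool.Agent.TH170.GS Pool.Agent.TH170.MF

section rel

variable {I : Type} [Fintype I] {K : I → Type} [∀ i, Field (K i)]
  [∀ i, NumberField (K i)] [∀ i, IsCMField (K i)]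

/-- The antisymmetric integral relations between the translates of the functions `ε i` are trivial. -/
def Triv {I : Type} [Fintype I] (K : I → Type) [∀ i, Field (K i)] [∀ i, NumberField (K i)]
    (ε : ∀ i, (K i →+* ℂ) → ℤ) : Prop :=
  ∀ c : ∀ i, (K i →+* ℂ) → ℤ, (∀ i φ, c i (ComplexEmbedding.conjugate φ) = - c i φ) →
    (∀ σ : ℂ ≃+* ℂ, ∑ i, ∑ φ : K i →+* ℂ, c i φ * ε i ((σ : ℂ →+* ℂ).comp φ) = 0) →
    ∀ i φ, c i φ = 0

theorem triv_of_L {L : Type} [Field L] [NumberField L] [IsGalois ℚ L] (j : L →+* ℂ)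
    (hj : ∀ i, ∀ ψ : K i →+* ℂ, ∃ φ : K i →+* L, j.comp φ = ψ)
    {ε : ∀ i, (K i →+* ℂ) → ℤ}
    (h : ∀ (c : ∀ i, (K i →+* L) → ℤ), (∀ i φ, c i (cbar φ) = - c i φ) →
      (∀ g : L ≃ₐ[ℚ] L, ∑ i, ∑ φ : K i →+* L, c i φ * ε i (j.comp (g • φ)) = 0) →
      ∀ (i : I) (φ : K i →+* L), c i φ = 0) : Triv K ε := by
  intro c hc hrel i φ
  have h1 := h (fun i φ => c i (j.comp φ))
    (fun i φ => by rw [comp_cbar, hc]) (fun g => ?_) i ((toC j (hj i)).symm φ)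
  · have h2 : j.comp ((toC j (hj i)).symm φ) = φ := (toC j (hj i)).apply_symm_apply φ
    rw [h2] at h1
    exact h1
  · obtain ⟨σ, hσ⟩ := exists_aut j (g : L ≃+* L)
    rw [← hrel σ]
    refine sum_congr rfl fun i _ => ?_
    refine Fintype.sum_equiv (toC j (hj i)) _ _ fun ψ => ?_
    have h3 : (σ : ℂ →+* ℂ).comp (toC j (hj i) ψ) = j.comp (g • ψ) := by
      ext y
      exact hσ (ψ y)
    rw [h3]
    rfl

theorem triv_of_traceIndep {ε : ∀ i, (K i →+* ℂ) → ℤ} (hε : TraceIndep K ε) : Triv K ε := by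
  obtain ⟨L, _, _, j, hj⟩ := exists_galois K
  exact triv_of_L j hj fun c hc hrel i φ => trivial_of_rel j hj hε c hc hrel i φ

/-- The real version. -/
theorem trivial_real {ε : ∀ i, (K i →+* ℂ) → ℤ} (hε : Triv K ε)
    (c : ∀ i, (K i →+* ℂ) → ℝ) (hc : ∀ i φ, c i (ComplexEmbedding.conjugate φ) = - c i φ)
    (hrel : ∀ σ : ℂ ≃+* ℂ, ∑ i, ∑ φ : K i →+* ℂ, c i φ *
      ((ε i ((σ : ℂ →+* ℂ).comp φ) : ℤ) : ℝ) = 0) (i : I)
    (φ : K i →+* ℂ) : c i φ = 0 := by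
  classical
  rw [← Module.forall_dual_apply_eq_zero_iff ℚ]
  intro l
  obtain ⟨D, m, hD, hm⟩ := exists_den fun z : Σ i, (K i →+* ℂ) => l (c z.1 z.2)
  have h1 : ∀ i φ, m ⟨i, φ⟩ = 0 := by
    refine hε (fun i φ => m ⟨i, φ⟩) (fun i φ => ?_) (fun σ => ?_)
    · have h2 : ((m ⟨i, ComplexEmbedding.conjugate φ⟩ : ℤ) : ℚ) = ((- m ⟨i, φ⟩ : ℤ) : ℚ) := by
        rw [hm, Int.cast_neg, hm, hc, map_neg]
        ring
      exact_mod_cast h2
    · have h2 := congrArg (fun x => (D : ℚ) * l x) (hrel σ)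
      simp only [map_sum, map_zero, mul_zero] at h2
      have h3 : ∀ (x : ℝ) (z : ℤ), l (x * (z : ℝ)) = l x * z := by
        intro x z
        rw [mul_comm, ← zsmul_eq_mul, map_zsmul, zsmul_eq_mul, mul_comm]
      simp only [h3, mul_sum] at h2
      have h4 : (∑ i, ∑ φ : K i →+* ℂ, ((m ⟨i, φ⟩ *
          (ε i ((σ : ℂ →+* ℂ).comp φ)) : ℤ) : ℚ)) = 0 := by
        rw [← h2]
        refine sum_congr rfl fun i _ => sum_congr rfl fun φ _ => ?_
        rw [Int.cast_mul, hm]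
        ring
      exact_mod_cast h4
  have h2 := hm ⟨i, φ⟩
  rw [h1, Int.cast_zero] at h2
  exact (mul_eq_zero.1 h2.symm).resolve_left (Nat.cast_ne_zero.2 hD)

/-- `ε` is close to the multiples `m i * ε⁰ i`, `l`-adically for some `l` or in the usual absolute
value; the closeness is measured by the positive integer `N`. -/
def Close {I : Type} [Fintype I] {K : I → Type} [∀ i, Field (K i)] [∀ i, NumberField (K i)]
    (N : ℕ) (ε₀ ε : ∀ i, (K i →+* ℂ) → ℤ) (m : I → ℤ) : Prop :=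
  (∃ l : ℕ, l.Prime ∧ ∀ i ψ, padicNorm l ((ε i ψ - m i * ε₀ i ψ : ℤ) : ℚ) <
    padicNorm l ((N * m i : ℤ) : ℚ)) ∨
  (N : ℚ) * ∑ i, (∑ ψ : K i →+* ℂ, |((ε i ψ - m i * ε₀ i ψ : ℤ) : ℚ)|) / |(m i : ℚ)| < 1

theorem exists_inverse {L : Type} [Field L] [NumberField L] [IsGalois ℚ L] (j : L →+* ℂ)
    (hj : ∀ i, ∀ ψ : K i →+* ℂ, ∃ φ : K i →+* L, j.comp φ = ψ)
    {ε₀ : ∀ i, (K i →+* ℂ) → ℤ} (h0 : TraceIndep K ε₀) :
    ∃ (D : ℕ) (m : (L ≃ₐ[ℚ] L) → (Σ i, (K i →+* L)) → ℤ), D ≠ 0 ∧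
      ∀ c : ∀ i, (K i →+* L) → ℚ, (∀ i φ, c i (cbar φ) = - c i φ) → ∀ i φ,
        (D : ℚ) * c i φ = ∑ g : L ≃ₐ[ℚ] L, (m g ⟨i, φ⟩ : ℚ) *
          ∑ k, ∑ φ : K k →+* L, c k φ * ε₀ k (j.comp (g • φ)) := by
  classical
  let X : Type := Σ i, (K i →+* L)
  let T : (X → ℚ) →ₗ[ℚ] ((L ≃ₐ[ℚ] L) → ℚ) × (X → ℚ) :=
    { toFun := fun c => (fun g => ∑ k, ∑ φ : K k →+* L, c ⟨k, φ⟩ * ε₀ k (j.comp (g • φ)),
        fun z => c z + c ⟨z.1, cbar z.2⟩)
      map_add' := by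
        intro c c'
        refine Prod.ext (funext fun g => ?_) (funext fun z => ?_)
        · simp only [Pi.add_apply, Prod.mk_add_mk, add_mul, sum_add_distrib]
        · simp only [Pi.add_apply, Prod.mk_add_mk]
          ring
      map_smul' := by
        intro r c
        refine Prod.ext (funext fun g => ?_) (funext fun z => ?_)
        · simp only [Pi.smul_apply, Prod.smul_mk, smul_eq_mul, RingHom.id_apply, mul_sum, mul_assoc]
        · simp only [Pi.smul_apply, Prod.smul_mk, smul_eq_mul, RingHom.id_apply]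
          ring }
  have hker : LinearMap.ker T = ⊥ := by
    rw [LinearMap.ker_eq_bot']
    intro c hc
    have h1 : ∀ g : L ≃ₐ[ℚ] L, ∑ k, ∑ φ : K k →+* L, c ⟨k, φ⟩ * ε₀ k (j.comp (g • φ)) = 0 :=
      fun g => congrFun (congrArg Prod.fst hc) g
    have h2 : ∀ z : X, c z + c ⟨z.1, cbar z.2⟩ = 0 := fun z => congrFun (congrArg Prod.snd hc) z
    obtain ⟨D, m, hD, hm⟩ := exists_den c
    have h3 := trivial_of_rel j hj h0 (fun i φ => m ⟨i, φ⟩) (fun i φ => by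
      have h4 : ((m ⟨i, cbar φ⟩ : ℤ) : ℚ) = ((- m ⟨i, φ⟩ : ℤ) : ℚ) := by
        rw [hm, Int.cast_neg, hm]
        linear_combination (D : ℚ) * h2 ⟨i, φ⟩
      exact_mod_cast h4) (fun g => by
      have h4 : ((∑ i, ∑ φ : K i →+* L, m ⟨i, φ⟩ * ε₀ i (j.comp (g • φ)) : ℤ) : ℚ) = 0 := by
        push_cast
        have h5 := h1 g
        calc _ = (D : ℚ) * ∑ k, ∑ φ : K k →+* L, c ⟨k, φ⟩ * ε₀ k (j.comp (g • φ)) := by
              rw [mul_sum]
              refine sum_congr rfl fun i _ => ?_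
              rw [mul_sum]
              refine sum_congr rfl fun φ _ => ?_
              rw [hm]
              ring
          _ = 0 := by rw [h5, mul_zero]
      exact_mod_cast h4)
    funext z
    have h4 := hm z
    have h5 : m z = 0 := h3 z.1 z.2
    rw [h5, Int.cast_zero] at h4
    exact (mul_eq_zero.1 h4.symm).resolve_left (Nat.cast_ne_zero.2 hD)
  obtain ⟨E, hE⟩ := T.exists_leftInverse_of_injective hker
  obtain ⟨D, m, hD, hm⟩ := exists_den fun z : (L ≃ₐ[ℚ] L) × X =>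
    E (Pi.single z.1 1, 0) z.2
  refine ⟨D, fun g x => m (g, x), hD, fun c hc i φ => ?_⟩
  let c' : X → ℚ := fun z => c z.1 z.2
  have h1 : E (T c') = c' := LinearMap.congr_fun hE c'
  have h2 : T c' = ∑ g : L ≃ₐ[ℚ] L, (∑ k, ∑ φ : K k →+* L, c k φ * ε₀ k (j.comp (g • φ))) •
      ((Pi.single g 1, 0) : ((L ≃ₐ[ℚ] L) → ℚ) × (X → ℚ)) := by
    refine Prod.ext (funext fun g => ?_) (funext fun z => ?_)
    · rw [Prod.fst_sum, Finset.sum_apply, sum_eq_single g]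
      · change _ = _ * (Pi.single g (1 : ℚ) : (L ≃ₐ[ℚ] L) → ℚ) g
        rw [Pi.single_eq_same, mul_one]
        rfl
      · intro b _ hb
        change _ * (Pi.single b (1 : ℚ) : (L ≃ₐ[ℚ] L) → ℚ) g = 0
        rw [Pi.single_eq_of_ne hb.symm, mul_zero]
      · intro h
        exact absurd (mem_univ _) h
    · rw [Prod.snd_sum, Finset.sum_apply]
      have h3 : c z.1 z.2 + c z.1 (cbar z.2) = 0 := by rw [hc]; ring
      change c z.1 z.2 + c z.1 (cbar z.2) = _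
      rw [h3]
      symm
      refine sum_eq_zero fun g _ => ?_
      change _ * (0 : ℚ) = 0
      rw [mul_zero]
  have h3 : c i φ = ∑ g : L ≃ₐ[ℚ] L, (∑ k, ∑ φ : K k →+* L, c k φ * ε₀ k (j.comp (g • φ))) *
      E (Pi.single g 1, 0) ⟨i, φ⟩ := by
    have h4 := congrFun h1 ⟨i, φ⟩
    rw [h2, map_sum, Finset.sum_apply] at h4
    rw [show c i φ = c' ⟨i, φ⟩ from rfl, ← h4]
    refine sum_congr rfl fun g _ => ?_
    rw [map_smul, Pi.smul_apply, smul_eq_mul]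
  conv_lhs => rw [h3]
  rw [mul_sum]
  refine sum_congr rfl fun g _ => ?_
  rw [hm (g, ⟨i, φ⟩)]
  ring

/-- **Perturbation**: functions close to functions with independent traces have no relations. -/
theorem triv_of_close {ε₀ : ∀ i, (K i →+* ℂ) → ℤ} (h0 : TraceIndep K ε₀) :
    ∃ N : ℕ, 0 < N ∧ ∀ (ε : ∀ i, (K i →+* ℂ) → ℤ) (m : I → ℤ), (∀ i, m i ≠ 0) →
      Close N ε₀ ε m → Triv K ε := by
  classical
  obtain ⟨L, _, _, j, hj⟩ := exists_galois K
  obtain ⟨D, E, hD, hE⟩ := exists_inverse j hj h0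
  have hX : Fintype (Σ i, (K i →+* L)) := inferInstance
  let B : ℕ := ∑ x : Σ i, (K i →+* L), ∑ g : L ≃ₐ[ℚ] L, (E g x).natAbs
  refine ⟨D * (1 + B), Nat.mul_pos (Nat.pos_of_ne_zero hD) (by omega), fun ε m hm hcl => ?_⟩
  refine triv_of_L j hj fun c hc hrel => ?_
  let r : ∀ i, (K i →+* ℂ) → ℤ := fun i ψ => ε i ψ - m i * ε₀ i ψ
  have key : ∀ i φ, (D : ℚ) * (m i * c i φ) = - ∑ g : L ≃ₐ[ℚ] L, (E g ⟨i, φ⟩ : ℚ) *
      ∑ k, ∑ φ : K k →+* L, (c k φ : ℚ) * r k (j.comp (g • φ)) := by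
    intro i φ
    rw [hE (fun i φ => (m i : ℚ) * c i φ) (fun i φ => by rw [hc]; push_cast; ring) i φ,
      ← sum_neg_distrib]
    refine sum_congr rfl fun g _ => ?_
    rw [← mul_neg]
    congr 1
    have h1 : ((∑ i, ∑ φ : K i →+* L, c i φ * ε i (j.comp (g • φ)) : ℤ) : ℚ) = 0 := by
      rw [hrel g, Int.cast_zero]
    push_cast at h1
    rw [eq_neg_iff_add_eq_zero, ← h1, ← sum_add_distrib]
    refine sum_congr rfl fun k _ => ?_
    rw [← sum_add_distrib]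
    refine sum_congr rfl fun φ _ => ?_
    simp only [r]
    push_cast
    ring
  by_contra hne
  push Not at hne
  obtain ⟨i₁, φ₁, hne⟩ := hne
  rcases hcl with ⟨l, hl, hcl⟩ | hcl
  · have _ : Fact l.Prime := ⟨hl⟩
    obtain ⟨⟨i, φ⟩, -, hmax⟩ := exists_max_image (univ : Finset (Σ i, (K i →+* L)))
      (fun x => padicNorm l ((m x.1 : ℚ) * c x.1 x.2)) ⟨⟨i₁, φ₁⟩, mem_univ _⟩
    have hpos : 0 < padicNorm l ((m i : ℚ) * c i φ) := by
      refine lt_of_lt_of_le ?_ (hmax ⟨i₁, φ₁⟩ (mem_univ _))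
      refine lt_of_le_of_ne (padicNorm.nonneg _) (Ne.symm ?_)
      exact padicNorm.nonzero (mul_ne_zero (Int.cast_ne_zero.2 (hm i₁)) (Int.cast_ne_zero.2 hne))
    have hDpos : 0 < padicNorm l (D : ℚ) :=
      lt_of_le_of_ne (padicNorm.nonneg _) (Ne.symm (padicNorm.nonzero (Nat.cast_ne_zero.2 hD)))
    have h1 := congrArg (padicNorm l) (key i φ)
    rw [padicNorm.mul, padicNorm.neg] at h1
    have hint : ∀ z : ℤ, padicNorm l (z : ℚ) ≤ 1 := fun z => padicNorm.of_int z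
    have h2 : padicNorm l (∑ g : L ≃ₐ[ℚ] L, (E g ⟨i, φ⟩ : ℚ) *
        ∑ k, ∑ φ : K k →+* L, (c k φ : ℚ) * r k (j.comp (g • φ))) <
        padicNorm l (D : ℚ) * padicNorm l ((m i : ℚ) * c i φ) := by
      have ht := mul_pos hDpos hpos
      refine padicNorm.sum_lt' (fun g _ => ?_) ht
      rw [padicNorm.mul]
      refine lt_of_le_of_lt (mul_le_of_le_one_left (padicNorm.nonneg _) (hint _)) ?_
      refine padicNorm.sum_lt' (fun k _ => ?_) ht
      refine padicNorm.sum_lt' (fun φ' _ => ?_) ht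
      rw [padicNorm.mul]
      by_cases hc0 : c k φ' = 0
      · rw [hc0, Int.cast_zero, padicNorm.zero, zero_mul]
        exact ht
      have h3 := hcl k (j.comp (g • φ'))
      have h4 : 0 < padicNorm l (c k φ' : ℚ) :=
        lt_of_le_of_ne (padicNorm.nonneg _) (Ne.symm (padicNorm.nonzero (Int.cast_ne_zero.2 hc0)))
      refine lt_of_lt_of_le (mul_lt_mul_of_pos_left h3 h4) ?_
      have h5 := hmax ⟨k, φ'⟩ (mem_univ _)
      have h6 : padicNorm l (c k φ' : ℚ) *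
          padicNorm l (((D * (1 + B) : ℕ) * m k : ℤ) : ℚ) =
          padicNorm l (((1 + B : ℕ) : ℤ) : ℚ) * (padicNorm l (D : ℚ) *
            padicNorm l ((m k : ℚ) * c k φ')) := by
        simp only [← padicNorm.mul]
        congr 1
        push_cast
        ring
      rw [h6]
      refine (mul_le_of_le_one_left (mul_nonneg hDpos.le (padicNorm.nonneg _)) (hint _)).trans ?_
      exact mul_le_mul_of_nonneg_left h5 hDpos.le
    rw [← h1] at h2
    exact lt_irrefl _ h2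
  · obtain ⟨⟨i, φ⟩, -, hmax⟩ := exists_max_image (univ : Finset (Σ i, (K i →+* L)))
      (fun x => |(m x.1 : ℚ) * c x.1 x.2|) ⟨⟨i₁, φ₁⟩, mem_univ _⟩
    have hpos : 0 < |(m i : ℚ) * c i φ| := by
      refine lt_of_lt_of_le ?_ (hmax ⟨i₁, φ₁⟩ (mem_univ _))
      exact abs_pos.2 (mul_ne_zero (Int.cast_ne_zero.2 (hm i₁)) (Int.cast_ne_zero.2 hne))
    set μ : ℚ := |(m i : ℚ) * c i φ| with hμ
    let ρ : ℚ := ∑ i, (∑ ψ : K i →+* ℂ, |((ε i ψ - m i * ε₀ i ψ : ℤ) : ℚ)|) / |(m i : ℚ)|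
    have hρ : 0 ≤ ρ := sum_nonneg fun i _ => div_nonneg (sum_nonneg fun _ _ => abs_nonneg _)
      (abs_nonneg _)
    have h1 : (D : ℚ) * μ ≤ (∑ g : L ≃ₐ[ℚ] L, |(E g ⟨i, φ⟩ : ℚ)|) * (μ * ρ) := by
      calc (D : ℚ) * μ = |(D : ℚ) * (m i * c i φ)| := by
            rw [abs_mul, Nat.abs_cast]
        _ ≤ ∑ g : L ≃ₐ[ℚ] L, |(E g ⟨i, φ⟩ : ℚ)| * (μ * ρ) := by
            rw [key, abs_neg]
            refine (abs_sum_le_sum_abs _ _).trans (sum_le_sum fun g _ => ?_)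
            rw [abs_mul]
            refine mul_le_mul_of_nonneg_left ?_ (abs_nonneg _)
            refine (abs_sum_le_sum_abs _ _).trans ?_
            rw [show μ * ρ = ∑ i, μ * ((∑ ψ : K i →+* ℂ, |((ε i ψ - m i * ε₀ i ψ : ℤ) : ℚ)|) /
              |(m i : ℚ)|) from mul_sum _ _ _]
            refine sum_le_sum fun k _ => ?_
            refine (abs_sum_le_sum_abs _ _).trans ?_
            have h5 : ∑ ψ : K k →+* ℂ, |((ε k ψ - m k * ε₀ k ψ : ℤ) : ℚ)| =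
                ∑ φ : K k →+* L, |((r k (j.comp (g • φ)) : ℤ) : ℚ)| := by
              refine (Fintype.sum_equiv ((MulAction.toPerm g).trans (toC j (hj k))) _ _
                fun φ => ?_).symm
              rfl
            rw [h5, sum_div, mul_sum]
            refine sum_le_sum fun φ' _ => ?_
            rw [abs_mul]
            have h6 := hmax ⟨k, φ'⟩ (mem_univ _)
            change |(m k : ℚ) * c k φ'| ≤ μ at h6
            rw [abs_mul] at h6
            have h7 : 0 < |(m k : ℚ)| := abs_pos.2 (Int.cast_ne_zero.2 (hm k))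
            rw [← mul_div_assoc, le_div_iff₀ h7]
            calc |(c k φ' : ℚ)| * |((r k (j.comp (g • φ')) : ℤ) : ℚ)| * |(m k : ℚ)| =
                (|(m k : ℚ)| * |(c k φ' : ℚ)|) * |((r k (j.comp (g • φ')) : ℤ) : ℚ)| := by ring
              _ ≤ μ * |((r k (j.comp (g • φ')) : ℤ) : ℚ)| :=
                mul_le_mul_of_nonneg_right h6 (abs_nonneg _)
        _ = _ := by rw [sum_mul]
    have h2 : (∑ g : L ≃ₐ[ℚ] L, |(E g ⟨i, φ⟩ : ℚ)|) ≤ ((D * (1 + B) : ℕ) : ℚ) := by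
      have h3 : ∑ g : L ≃ₐ[ℚ] L, (E g ⟨i, φ⟩).natAbs ≤ B :=
        single_le_sum (f := fun x : Σ i, (K i →+* L) => ∑ g : L ≃ₐ[ℚ] L, (E g x).natAbs)
          (fun _ _ => Nat.zero_le _) (mem_univ _)
      have h4 : (∑ g : L ≃ₐ[ℚ] L, |(E g ⟨i, φ⟩ : ℚ)|) =
          ((∑ g : L ≃ₐ[ℚ] L, (E g ⟨i, φ⟩).natAbs : ℕ) : ℚ) := by
        push_cast
        refine sum_congr rfl fun g _ => ?_
        rw [Nat.cast_natAbs, Int.cast_abs]
      rw [h4, Nat.cast_le]
      calc _ ≤ B := h3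
        _ ≤ 1 + B := by omega
        _ ≤ D * (1 + B) := Nat.le_mul_of_pos_left _ (Nat.pos_of_ne_zero hD)
    have h3 : (D : ℚ) * μ < μ := by
      calc (D : ℚ) * μ ≤ (∑ g : L ≃ₐ[ℚ] L, |(E g ⟨i, φ⟩ : ℚ)|) * (μ * ρ) := h1
        _ ≤ ((D * (1 + B) : ℕ) : ℚ) * (μ * ρ) :=
          mul_le_mul_of_nonneg_right h2 (mul_nonneg hpos.le hρ)
        _ = (((D * (1 + B) : ℕ) : ℚ) * ρ) * μ := by ring
        _ < 1 * μ := mul_lt_mul_of_pos_right hcl hpos
        _ = μ := one_mul μ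
    have h4 : (1 : ℚ) ≤ D := by exact_mod_cast Nat.pos_of_ne_zero hD
    nlinarith

end rel

end Pool.Agent.K7.H35.TI
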