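import Mathlib
import Pool.Agent.K7.H35.TI.Elem

/-!
# Slopes dominated at one embedding of each CM field
-/

set_option linter.unusedSectionVars false
set_option linter.unusedVariables false

namespace Pool.Agent.K7.H35.TI

open NumberField Finset Module Pool.Agent.H204R3.CM Pool.Agent.H977R3.CM Pool.Agent.TH170.FW
  Pool.Agent.TH170.GS Pool.Agent.TH170.MF Pool.Agent.TH170.CM

section rel

variable {I : Type} [Fintype I] {K : I → Type} [∀ i, Field (K i)]
  [∀ i, NumberField (K i)] [∀ i, IsCMField (K i)]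

/-- Purely imaginary numbers `φ i (x i)`, one in each of the fields `φ i (K i)`, that are not all
zero do not have the sum zero. -/
def ImaginaryIndependent {I : Type} [Fintype I] (K : I → Type) [∀ i, Field (K i)]
    (φ : ∀ i, K i →+* ℂ) : Prop :=
  ∀ x : ∀ i, K i, (∀ i, (φ i (x i)).re = 0) → ∑ i, φ i (x i) = 0 → ∀ i, x i = 0

theorem conj_eq_neg_iff (z : ℂ) : (starRingEnd ℂ) z = - z ↔ z.re = 0 := by
  constructor
  · intro h
    have h1 := congrArg Complex.re h
    rw [Complex.conj_re, Complex.neg_re] at h1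
    linarith
  · intro h
    apply Complex.ext
    · rw [Complex.conj_re, Complex.neg_re, h, neg_zero]
    · rw [Complex.conj_im, Complex.neg_im]

open Classical in
/-- The function `1` at `φ`, `-1` at its conjugate. -/
noncomputable def point {F : Type} [Field F] (φ ψ : F →+* ℂ) : ℤ :=
  if ψ = φ then 1 else if ψ = ComplexEmbedding.conjugate φ then -1 else 0

theorem sum_point {F : Type} [Field F] [NumberField F] [IsCMField F] (φ : F →+* ℂ) (x : F) :
    ∑ ψ : F →+* ℂ, (point φ ψ : ℂ) * ψ x = φ x - (starRingEnd ℂ) (φ x) := by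
  classical
  have h1 : ∀ ψ : F →+* ℂ, (point φ ψ : ℂ) * ψ x = (if ψ = φ then ψ x else 0) -
      (if ψ = ComplexEmbedding.conjugate φ then ψ x else 0) := by
    intro ψ
    unfold point
    by_cases h : ψ = φ
    · subst h
      rw [if_pos rfl, if_pos rfl, if_neg (conj_ne ψ).symm]
      simp
    · rw [if_neg h, if_neg h]
      split_ifs <;> simp
  rw [sum_congr rfl fun ψ _ => h1 ψ, sum_sub_distrib, sum_ite_eq' univ φ,
    sum_ite_eq' univ (ComplexEmbedding.conjugate φ), if_pos (mem_univ _), if_pos (mem_univ _),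
    ComplexEmbedding.conjugate_coe_eq]

theorem traceIndep_point {φ : ∀ i, K i →+* ℂ} (h : ImaginaryIndependent K φ) :
    TraceIndep K (fun i => point (φ i)) := by
  intro x hx hsum
  refine h x (fun i => (conj_eq_neg_iff _).1 (hx i (φ i))) ?_
  have h1 : ∀ i, ∑ ψ : K i →+* ℂ, (point (φ i) ψ : ℂ) * ψ (x i) = 2 * φ i (x i) := by
    intro i
    rw [sum_point, hx i (φ i)]
    ring
  rw [sum_congr rfl fun i _ => h1 i, ← mul_sum] at hsum
  exact (mul_eq_zero.1 hsum).resolve_left two_ne_zero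

open Classical in
/-- The weights `M i` are dominated at the embeddings `φ i` (up to the integer `N`): they are not
zero at `φ i` and, either for some prime number `l` all other weights `M i ψ` are divisible by a
larger power of `l` than `N * M i (φ i)`, or the sum over `i` of the absolute values of the other
weights, divided by the absolute value of `M i (φ i)`, is less than `1 / N`. -/
def DominatedAt {I : Type} [Fintype I] {K : I → Type} [∀ i, Field (K i)] [∀ i, NumberField (K i)]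
    (N : ℕ) (φ : ∀ i, K i →+* ℂ) (M : ∀ i, (K i →+* ℂ) → ℤ) : Prop :=
  (∀ i, M i (φ i) ≠ 0) ∧
  ((∃ l : ℕ, l.Prime ∧ ∀ i (ψ : K i →+* ℂ), ψ ≠ φ i → ψ ≠ ComplexEmbedding.conjugate (φ i) →
      (l : ℤ) ^ (padicValInt l (N * M i (φ i)) + 1) ∣ M i ψ) ∨
    (N : ℚ) * ∑ i, (∑ ψ : K i →+* ℂ, if ψ = φ i ∨ ψ = ComplexEmbedding.conjugate (φ i) then 0
      else (|M i ψ| : ℚ)) / (|M i (φ i)| : ℚ) < 1)

theorem padicNorm_lt {l : ℕ} (hl : l.Prime) {a b : ℤ} (hb : b ≠ 0)
    (h : (l : ℤ) ^ (padicValInt l b + 1) ∣ a) : padicNorm l (a : ℚ) < padicNorm l (b : ℚ) := by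
  have _ : Fact l.Prime := ⟨hl⟩
  have h1 : padicNorm l (a : ℚ) ≤ (l : ℚ) ^ (-((padicValInt l b + 1 : ℕ) : ℤ)) := by
    rw [← padicNorm.dvd_iff_norm_le]
    push_cast
    exact_mod_cast h
  refine lt_of_le_of_lt h1 ?_
  rw [padicNorm.eq_zpow_of_nonzero (Int.cast_ne_zero.2 hb), padicValRat.of_int]
  refine zpow_lt_zpow_right₀ (by exact_mod_cast hl.one_lt) ?_
  push_cast
  omega

theorem triv_of_dominatedAt {φ : ∀ i, K i →+* ℂ} (h : ImaginaryIndependent K φ) :
    ∃ N : ℕ, 0 < N ∧ ∀ (M : ∀ i, (K i →+* ℂ) → ℤ),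
      (∀ i φ, M i (ComplexEmbedding.conjugate φ) = M i φ) → DominatedAt N φ M →
      ∀ Φ : ∀ i, Set (K i →+* ℂ), (∀ i, IsCMType (Φ i)) →
        Triv K (fun i ψ => sgn (Φ i) ψ * M i ψ) := by
  classical
  obtain ⟨N, hN, hclose⟩ := triv_of_close (traceIndep_point h)
  refine ⟨N, hN, fun M hM hdom Φ hΦ => ?_⟩
  obtain ⟨hM0, hdom⟩ := hdom
  have hsgn : ∀ i (ψ : K i →+* ℂ), sgn (Φ i) ψ = 1 ∨ sgn (Φ i) ψ = -1 := by
    intro i ψ
    unfold sgn
    split_ifs
    · exact Or.inl rfl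
    · exact Or.inr rfl
  have hsgn' : ∀ i (ψ : K i →+* ℂ), |sgn (Φ i) ψ| = 1 := by
    intro i ψ
    rcases hsgn i ψ with h | h <;> rw [h] <;> rfl
  refine hclose _ (fun i => sgn (Φ i) (φ i) * M i (φ i)) (fun i => ?_) ?_
  · refine mul_ne_zero ?_ (hM0 i)
    rcases hsgn i (φ i) with h | h <;> rw [h] <;> norm_num
  have hdiff : ∀ i (ψ : K i →+* ℂ), sgn (Φ i) ψ * M i ψ -
      sgn (Φ i) (φ i) * M i (φ i) * point (φ i) ψ =
      if ψ = φ i ∨ ψ = ComplexEmbedding.conjugate (φ i) then 0 else sgn (Φ i) ψ * M i ψ := by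
    intro i ψ
    unfold point
    by_cases h1 : ψ = φ i
    · rw [if_pos h1, if_pos (Or.inl h1), h1]
      ring
    · by_cases h2 : ψ = ComplexEmbedding.conjugate (φ i)
      · rw [if_neg h1, if_pos h2, if_pos (Or.inr h2), h2, hM, (oddSign_sgn (hΦ i)).2]
        ring
      · rw [if_neg h1, if_neg h2, if_neg (by tauto)]
        ring
  unfold Close
  simp only [hdiff]
  rcases hdom with ⟨l, hl, hdom⟩ | hdom
  · left
    refine ⟨l, hl, fun i ψ => ?_⟩
    have _ : Fact l.Prime := ⟨hl⟩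
    have h0 : (N : ℤ) * M i (φ i) ≠ 0 :=
      mul_ne_zero (Int.natCast_ne_zero.2 hN.ne') (hM0 i)
    have h1 : padicNorm l (((N : ℤ) * (sgn (Φ i) (φ i) * M i (φ i)) : ℤ) : ℚ) =
        padicNorm l (((N : ℤ) * M i (φ i) : ℤ) : ℚ) := by
      rcases hsgn i (φ i) with h | h
      · rw [h, one_mul]
      · rw [h, neg_one_mul, mul_neg, Int.cast_neg, padicNorm.neg]
    rw [h1]
    split_ifs with h2
    · rw [Int.cast_zero, padicNorm.zero]
      exact lt_of_le_of_ne (padicNorm.nonneg _) (Ne.symm (padicNorm.nonzero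
        (Int.cast_ne_zero.2 h0)))
    · rw [not_or] at h2
      exact padicNorm_lt hl h0 (dvd_mul_of_dvd_right (hdom i ψ h2.1 h2.2) _)
  · right
    convert hdom using 4 with i _
    · refine sum_congr rfl fun ψ _ => ?_
      split_ifs
      · simp
      · rw [Int.cast_mul, abs_mul, ← Int.cast_abs, hsgn', Int.cast_one, one_mul]
    · rw [Int.cast_mul, abs_mul, ← Int.cast_abs, hsgn', Int.cast_one, one_mul]

end rel

end Pool.Agent.K7.H35.TI
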