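import Mathlib
import Pool.Agent.K7.H35.TI.Main

/-!
# Fields that meet the compositum of the previous ones in real fields
-/

set_option linter.unusedSectionVars false
set_option linter.unusedVariables false

namespace Pool.Agent.K7.H35.TI

open NumberField Finset Module Pool.Agent.H204R3.CM Pool.Agent.H977R3.CM Pool.Agent.TH170.FW
  Pool.Agent.TH170.GS Pool.Agent.TH170.MF Pool.Agent.TH170.CM

section rel

variable {I : Type} [Fintype I] [LinearOrder I] {K : I → Type} [∀ i, Field (K i)]
  [∀ i, NumberField (K i)] [∀ i, IsCMField (K i)]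

/-- Each field `φ i (K i)` meets the compositum of the previous ones, `φ k (K k)` for `k < i`, in a
real field. -/
def RealMeets {I : Type} [LinearOrder I] (K : I → Type) [∀ i, Field (K i)]
    [∀ i, NumberField (K i)] (φ : ∀ i, K i →+* ℂ) : Prop :=
  ∀ i, ∀ z ∈ ((φ i).toRatAlgHom : K i →ₐ[ℚ] ℂ).fieldRange ⊓
    ⨆ k, ⨆ (_ : k < i), ((φ k).toRatAlgHom : K k →ₐ[ℚ] ℂ).fieldRange, z.im = 0

theorem imaginaryIndependent_of_realMeets {φ : ∀ i, K i →+* ℂ} (h : RealMeets K φ) :
    ImaginaryIndependent K φ := by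
  classical
  intro x hx hsum
  by_contra hne
  push Not at hne
  obtain ⟨i₀, hi₀⟩ := hne
  have hS : (univ.filter fun i => x i ≠ 0).Nonempty := ⟨i₀, mem_filter.2 ⟨mem_univ _, hi₀⟩⟩
  set i := (univ.filter fun i => x i ≠ 0).max' hS with hi
  have hi1 : x i ≠ 0 := (mem_filter.1 (max'_mem _ hS)).2
  have hi2 : ∀ k, i < k → x k = 0 := by
    intro k hk
    by_contra h0
    exact absurd (le_max' _ k (mem_filter.2 ⟨mem_univ k, h0⟩)) (not_le.2 hk)
  have h1 : φ i (x i) = - ∑ k ∈ univ.filter (fun k => k < i), φ k (x k) := by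
    have h2 : ∑ k, φ k (x k) = φ i (x i) + ∑ k ∈ univ.filter (fun k => k < i), φ k (x k) := by
      rw [← add_sum_erase univ (fun k => φ k (x k)) (mem_univ i)]
      congr 1
      symm
      refine sum_subset ?_ ?_
      · intro k hk
        exact mem_erase.2 ⟨(mem_filter.1 hk).2.ne, mem_univ k⟩
      · intro k hk hk'
        have h3 : i < k := by
          rcases lt_trichotomy k i with h | h | h
          · exact absurd (mem_filter.2 ⟨mem_univ k, h⟩) hk'
          · exact absurd h (ne_of_mem_erase hk)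
          · exact h
        rw [hi2 k h3, map_zero]
    rw [hsum] at h2
    exact eq_neg_of_add_eq_zero_left h2.symm
  have h2 := h i (φ i (x i)) ⟨⟨x i, rfl⟩, by
    rw [h1]
    refine neg_mem (sum_mem fun k hk => ?_)
    have h3 : ((φ k).toRatAlgHom : K k →ₐ[ℚ] ℂ).fieldRange ≤
        ⨆ k, ⨆ (_ : k < i), ((φ k).toRatAlgHom : K k →ₐ[ℚ] ℂ).fieldRange :=
      le_iSup₂_of_le k (mem_filter.1 hk).2 le_rfl
    exact h3 ⟨x k, rfl⟩⟩
  apply hi1
  apply (φ i).injective
  rw [map_zero]
  exact Complex.ext (hx i) h2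

/-- The relations modulo an odd prime number. -/
theorem dvd_of_rel {L : Type} [Field L] [NumberField L] [IsGalois ℚ L] (j : L →+* ℂ)
    (hj : ∀ i, ∀ ψ : K i →+* ℂ, ∃ φ : K i →+* L, j.comp φ = ψ)
    {φ : ∀ i, K i →+* ℂ} (hφ : RealMeets K φ) {l : ℕ} (hl : l.Prime) (hl2 : l ≠ 2)
    {ε : ∀ i, (K i →+* ℂ) → ℤ} (hε : ∀ i ψ, ε i (ComplexEmbedding.conjugate ψ) = - ε i ψ)
    (hu : ∀ i, ¬ (l : ℤ) ∣ ε i (φ i))
    (hd : ∀ i ψ, ψ ≠ φ i → ψ ≠ ComplexEmbedding.conjugate (φ i) → (l : ℤ) ∣ ε i ψ)
    (b : ∀ i, (K i →+* L) → ℤ) (hb : ∀ i φ, b i (cbar φ) = - b i φ)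
    (hrel : ∀ g : L ≃ₐ[ℚ] L, ∑ i, ∑ φ : K i →+* L, b i φ * ε i (j.comp (g • φ)) = 0) (i : I)
    (ψ : K i →+* L) : (l : ℤ) ∣ b i ψ := by
  classical
  have _ : Fact l.Prime := ⟨hl⟩
  choose ω hω using fun i => hj i (φ i)
  let f : ∀ i, (L ≃ₐ[ℚ] L) → ZMod l := fun i g => 2 * (b i (g • ω i) : ZMod l) * (ε i (φ i) : ZMod l)
  have h2 : (2 : ZMod l) ≠ 0 := by
    intro h
    have h3 : ((2 : ℕ) : ZMod l) = 0 := by exact_mod_cast h
    rw [ZMod.natCast_eq_zero_iff] at h3
    exact hl2 ((Nat.prime_dvd_prime_iff_eq hl Nat.prime_two).1 h3)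
  have hε0 : ∀ i, (ε i (φ i) : ZMod l) ≠ 0 := by
    intro i h
    rw [ZMod.intCast_zmod_eq_zero_iff_dvd] at h
    exact hu i h
  have hsum : ∀ g : L ≃ₐ[ℚ] L, ∑ i, f i g = 0 := by
    intro g
    have h1 := congrArg (fun z : ℤ => (z : ZMod l)) (hrel g⁻¹)
    simp only [Int.cast_sum, Int.cast_mul, Int.cast_zero] at h1
    rw [← h1]
    refine sum_congr rfl fun i _ => ?_
    have h3 : ∀ χ : K i →+* L, (b i χ : ZMod l) * (ε i (j.comp (g⁻¹ • χ)) : ZMod l) =
        (if χ = g • ω i then (b i (g • ω i) : ZMod l) * (ε i (φ i) : ZMod l) else 0) +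
        (if χ = cbar (g • ω i) then (b i (g • ω i) : ZMod l) * (ε i (φ i) : ZMod l) else 0) := by
      intro χ
      by_cases h4 : χ = g • ω i
      · rw [if_pos h4, if_neg (fun h5 => cbar_ne (g • ω i) (h5.symm.trans h4)), add_zero, h4,
          inv_smul_smul, hω]
      · rw [if_neg h4, zero_add]
        by_cases h5 : χ = cbar (g • ω i)
        · rw [if_pos h5, h5]
          have h6 : g⁻¹ • cbar (g • ω i) = cbar (ω i) := by
            change cbar (g⁻¹ • g • ω i) = _
            rw [inv_smul_smul]
          rw [h6, comp_cbar, hω, hε, hb]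
          push_cast
          ring
        · rw [if_neg h5]
          have h6 : (ε i (j.comp (g⁻¹ • χ)) : ZMod l) = 0 := by
            rw [ZMod.intCast_zmod_eq_zero_iff_dvd]
            apply hd
            · intro h7
              apply h4
              have h8 : g⁻¹ • χ = ω i := by
                ext z
                apply j.injective
                have := RingHom.congr_fun (h7.trans (hω i).symm) z
                exact this
              rw [← h8, smul_inv_smul]
            · intro h7
              apply h5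
              have h8 : g⁻¹ • χ = cbar (ω i) := by
                ext z
                apply j.injective
                have h9 : j.comp (g⁻¹ • χ) = j.comp (cbar (ω i)) := by
                  rw [h7, comp_cbar, hω]
                exact RingHom.congr_fun h9 z
              have h10 : χ = g • cbar (ω i) := by rw [← h8, smul_inv_smul]
              rw [h10]
              rfl
          rw [h6, mul_zero]
    rw [sum_congr rfl fun χ _ => h3 χ, sum_add_distrib, sum_ite_eq', sum_ite_eq',
      if_pos (mem_univ _), if_pos (mem_univ _)]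
    simp only [f]
    ring
  obtain ⟨z₀, hz₀⟩ := exists_gal j (starRingAut (R := ℂ))
  have hz₀ω : ∀ i (χ : K i →+* L), z₀ • χ = cbar χ := by
    intro i χ
    ext x
    apply j.injective
    rw [emb_smul_apply, ← hz₀]
    have h3 := RingHom.congr_fun (comp_cbar j χ) x
    rw [ComplexEmbedding.conjugate_coe_eq] at h3
    exact h3.symm
  have hfc : ∀ i g, f i (g * z₀) = - f i g := by
    intro i g
    simp only [f]
    rw [mul_smul, hz₀ω]
    have h3 : g • cbar (ω i) = cbar (g • ω i) := rfl
    rw [h3, hb]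
    push_cast
    ring
  -- all functions vanish
  have hzero : ∀ i g, f i g = 0 := by
    by_contra hne
    push Not at hne
    obtain ⟨i₀, g₀, hg₀⟩ := hne
    have hS : (univ.filter fun i => ∃ g, f i g ≠ 0).Nonempty :=
      ⟨i₀, mem_filter.2 ⟨mem_univ _, g₀, hg₀⟩⟩
    set k := (univ.filter fun i => ∃ g, f i g ≠ 0).max' hS with hk
    obtain ⟨g₁, hg₁⟩ : ∃ g, f k g ≠ 0 := (mem_filter.1 (max'_mem _ hS)).2
    have hk2 : ∀ m, k < m → ∀ g, f m g = 0 := by
      intro m hm g
      by_contra h0
      exact absurd (le_max' _ m (mem_filter.2 ⟨mem_univ m, g, h0⟩)) (not_le.2 hm)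
    have h3 : ∀ g, f k g = - ∑ m ∈ univ.filter (fun m => m < k), f m g := by
      intro g
      have h4 : ∑ m, f m g = f k g + ∑ m ∈ univ.filter (fun m => m < k), f m g := by
        rw [← add_sum_erase univ (fun m => f m g) (mem_univ k)]
        congr 1
        symm
        refine sum_subset ?_ ?_
        · intro m hm
          exact mem_erase.2 ⟨(mem_filter.1 hm).2.ne, mem_univ m⟩
        · intro m hm hm'
          have h5 : k < m := by
            rcases lt_trichotomy m k with h | h | h
            · exact absurd (mem_filter.2 ⟨mem_univ m, h⟩) hm'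
            · exact absurd h (ne_of_mem_erase hm)
            · exact h
          exact hk2 m h5 g
      rw [hsum] at h4
      exact eq_neg_of_add_eq_zero_left h4.symm
    let A : ∀ i, IntermediateField ℚ L := fun i => ((ω i).toRatAlgHom : K i →ₐ[ℚ] L).fieldRange
    have hA : ∀ i (s : L ≃ₐ[ℚ] L), s ∈ (A i).fixingSubgroup → s • ω i = ω i := by
      intro i s hs
      ext x
      rw [emb_smul_apply]
      exact (IntermediateField.mem_fixingSubgroup_iff _ _).1 hs (ω i x) ⟨x, rfl⟩
    let S : Subgroup (L ≃ₐ[ℚ] L) :=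
      { carrier := {s | ∀ g, f k (g * s) = f k g}
        mul_mem' := by
          intro s t hs ht g
          rw [← mul_assoc, ht, hs]
        one_mem' := fun g => by rw [mul_one]
        inv_mem' := by
          intro s hs g
          have := hs (g * s⁻¹)
          rw [inv_mul_cancel_right] at this
          exact this.symm }
    have hS1 : (A k).fixingSubgroup ≤ S := by
      intro s hs g
      simp only [f]
      rw [mul_smul, hA k s hs]
    have hS2 : (⨆ m, ⨆ (_ : m < k), A m).fixingSubgroup ≤ S := by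
      intro s hs g
      rw [h3, h3]
      congr 1
      refine sum_congr rfl fun m hm => ?_
      simp only [f]
      rw [mul_smul, hA m s ?_]
      exact IntermediateField.fixingSubgroup_le
        (le_iSup₂_of_le (f := fun m (_ : m < k) => A m) m (mem_filter.1 hm).2 le_rfl) hs
    have hfix : ∀ E : IntermediateField ℚ L, E.fixingSubgroup ≤ S →
        IntermediateField.fixedField S ≤ E := by
      intro E hE
      rw [← IsGalois.fixedField_fixingSubgroup E, IntermediateField.le_iff_le,
        IntermediateField.fixingSubgroup_fixedField]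
      exact hE
    have hz : z₀ ∈ S := by
      rw [← IntermediateField.fixingSubgroup_fixedField S, IntermediateField.mem_fixingSubgroup_iff]
      intro x hx
      have hx1 : x ∈ A k := hfix _ hS1 hx
      have hx2 : x ∈ ⨆ m, ⨆ (_ : m < k), A m := hfix _ hS2 hx
      apply j.injective
      rw [← hz₀]
      have h4 : j x ∈ ((φ k).toRatAlgHom : K k →ₐ[ℚ] ℂ).fieldRange := by
        obtain ⟨y, hy⟩ := hx1
        refine ⟨y, ?_⟩
        have h5 := RingHom.congr_fun (hω k) y
        have h6 : ω k y = x := hy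
        rw [← h6]
        exact h5.symm
      have h5 : j x ∈ ⨆ m, ⨆ (_ : m < k), ((φ m).toRatAlgHom : K m →ₐ[ℚ] ℂ).fieldRange := by
        have h6 : j x ∈ (⨆ m, ⨆ (_ : m < k), A m).map (j.toRatAlgHom : L →ₐ[ℚ] ℂ) := ⟨x, hx2, rfl⟩
        rw [IntermediateField.map_iSup] at h6
        have h7 : ∀ m, (⨆ (_ : m < k), A m).map (j.toRatAlgHom : L →ₐ[ℚ] ℂ) =
            ⨆ (_ : m < k), ((φ m).toRatAlgHom : K m →ₐ[ℚ] ℂ).fieldRange := by
          intro m
          rw [IntermediateField.map_iSup]
          congr 1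
          funext _
          rw [AlgHom.map_fieldRange]
          congr 1
          ext y
          exact RingHom.congr_fun (hω m) y
        rw [iSup_congr h7] at h6
        exact h6
      have h6 := hφ k (j x) ⟨h4, h5⟩
      change (starRingEnd ℂ) (j x) = j x
      exact Complex.conj_eq_iff_im.2 h6
    have h4 := hz g₁
    rw [hfc] at h4
    apply hg₁
    have h5 : (2 : ZMod l) * f k g₁ = 0 := by
      linear_combination -h4
    exact (mul_eq_zero.1 h5).resolve_left h2
  obtain ⟨g, hg⟩ := MulAction.exists_smul_eq (L ≃ₐ[ℚ] L) (ω i) ψ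
  have h3 := hzero i g
  simp only [f] at h3
  rw [hg] at h3
  have h4 : (b i ψ : ZMod l) = 0 := by
    rcases mul_eq_zero.1 h3 with h | h
    · exact (mul_eq_zero.1 h).resolve_left h2
    · exact absurd h (hε0 i)
  rwa [ZMod.intCast_zmod_eq_zero_iff_dvd] at h4

end rel

end Pool.Agent.K7.H35.TI
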