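import Mathlib
import Pool.Agent.K7.H35.TI.Order

/-!
# Descent
-/

set_option linter.unusedSectionVars false
set_option linter.unusedVariables false

namespace Pool.Agent.K7.H35.TI

open NumberField Finset Module Pool.Agent.H204R3.CM Pool.Agent.H977R3.CM Pool.Agent.TH170.FW
  Pool.Agent.TH170.GS Pool.Agent.TH170.MF Pool.Agent.TH170.CM

section rel

variable {I : Type} [Fintype I] [LinearOrder I] {K : I → Type} [∀ i, Field (K i)]
  [∀ i, NumberField (K i)] [∀ i, IsCMField (K i)]

/-- The weights `M i` are dominated at `φ i` with respect to the prime number `l`: they are not zero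
at `φ i`, and all weights at embeddings different from `φ i` and its conjugate are divisible by a
larger power of `l` than `M i (φ i)`. -/
def AdicDominated {I : Type} {K : I → Type} [∀ i, Field (K i)]
    (l : ℕ) (φ : ∀ i, K i →+* ℂ) (M : ∀ i, (K i →+* ℂ) → ℤ) : Prop :=
  ∀ i, M i (φ i) ≠ 0 ∧ ∀ ψ : K i →+* ℂ, ψ ≠ φ i → ψ ≠ ComplexEmbedding.conjugate (φ i) →
      (l : ℤ) ^ (padicValInt l (M i (φ i)) + 1) ∣ M i ψ

theorem triv_of_realMeets {φ : ∀ i, K i →+* ℂ} (hφ : RealMeets K φ) {l : ℕ} (hl : l.Prime)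
    (hl2 : l ≠ 2) {M : ∀ i, (K i →+* ℂ) → ℤ}
    (hM : ∀ i φ, M i (ComplexEmbedding.conjugate φ) = M i φ) (hdom : AdicDominated l φ M)
    {Φ : ∀ i, Set (K i →+* ℂ)} (hΦ : ∀ i, IsCMType (Φ i)) :
    Triv K (fun i ψ => sgn (Φ i) ψ * M i ψ) := by
  classical
  have _ : Fact l.Prime := ⟨hl⟩
  obtain ⟨L, _, _, j, hj⟩ := exists_galois K
  refine triv_of_L j hj fun c hc hrel => ?_
  let v : I → ℕ := fun i => padicValInt l (M i (φ i))
  have hdv : ∀ i ψ, (l : ℤ) ^ v i ∣ M i ψ := by
    intro i ψ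
    by_cases h1 : ψ = φ i
    · rw [h1]
      exact padicValInt_dvd _
    by_cases h2 : ψ = ComplexEmbedding.conjugate (φ i)
    · rw [h2, hM]
      exact padicValInt_dvd _
    · exact (pow_dvd_pow _ (Nat.le_succ _)).trans ((hdom i).2 ψ h1 h2)
  choose M' hM' using hdv
  have hl0 : (l : ℤ) ≠ 0 := Int.natCast_ne_zero.2 hl.ne_zero
  have hsgn : ∀ i (ψ : K i →+* ℂ), sgn (Φ i) ψ = 1 ∨ sgn (Φ i) ψ = -1 := by
    intro i ψ
    unfold sgn
    split_ifs
    · exact Or.inl rfl
    · exact Or.inr rfl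
  have hM'c : ∀ i ψ, M' i (ComplexEmbedding.conjugate ψ) = M' i ψ := by
    intro i ψ
    have h1 := hM i ψ
    rw [hM' i, hM' i ψ] at h1
    exact mul_left_cancel₀ (pow_ne_zero _ hl0) h1
  have key : ∀ n : ℕ, ∀ i (ψ : K i →+* L), (l : ℤ) ^ n ∣ (l : ℤ) ^ v i * c i ψ := by
    intro n
    induction n with
    | zero =>
      intro i ψ
      rw [pow_zero]
      exact one_dvd _
    | succ n ih =>
      choose b hb using ih
      have hln : (l : ℤ) ^ n ≠ 0 := pow_ne_zero _ hl0
      have h1 := dvd_of_rel j hj hφ hl hl2 (ε := fun i ψ => sgn (Φ i) ψ * M' i ψ)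
        (fun i ψ => by
          rw [hM'c, (oddSign_sgn (hΦ i)).2]
          ring)
        (fun i hdvd => by
          have h2 : (l : ℤ) ∣ M' i (φ i) := by
            rcases hsgn i (φ i) with h | h
            · rwa [h, one_mul] at hdvd
            · rwa [h, neg_one_mul, dvd_neg] at hdvd
          have h3 : (l : ℤ) ^ (v i + 1) ∣ M i (φ i) := by
            rw [hM' i, pow_succ]
            exact mul_dvd_mul_left _ h2
          have h4 := (padicValInt_dvd_iff (v i + 1) (M i (φ i))).1 h3
          rcases h4 with h4 | h4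
          · exact (hdom i).1 h4
          · change v i + 1 ≤ v i at h4
            omega)
        (fun i ψ h2 h3 => by
          have h4 := (hdom i).2 ψ h2 h3
          change (l : ℤ) ^ (v i + 1) ∣ _ at h4
          rw [hM' i, pow_succ] at h4
          exact dvd_mul_of_dvd_right ((mul_dvd_mul_iff_left (pow_ne_zero _ hl0)).1 h4) _)
        b (fun i ψ => by
          have h2 := hb i (cbar ψ)
          rw [hc, mul_neg, hb i ψ, ← mul_neg] at h2
          exact (mul_left_cancel₀ hln h2).symm)
        (fun g => by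
          apply mul_left_cancel₀ hln
          rw [mul_zero, ← hrel g, mul_sum]
          refine sum_congr rfl fun i _ => ?_
          rw [mul_sum]
          refine sum_congr rfl fun ψ _ => ?_
          rw [← mul_assoc, ← hb i ψ, hM' i (j.comp (g • ψ))]
          ring)
      intro i ψ
      rw [hb i ψ, pow_succ]
      exact mul_dvd_mul_left _ (h1 i ψ)
  intro i ψ
  by_contra h0
  set w : ℤ := (l : ℤ) ^ v i * c i ψ with hw
  have hw0 : w ≠ 0 := mul_ne_zero (pow_ne_zero _ hl0) h0
  have h1 := key w.natAbs i ψ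
  have h2 := Int.natAbs_le_of_dvd_ne_zero h1 hw0
  rw [Int.natAbs_pow, Int.natAbs_natCast] at h2
  exact absurd (Nat.lt_pow_self hl.one_lt) (not_lt.2 h2)

end rel

end Pool.Agent.K7.H35.TI
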